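import Pool.Agent.H23.DF.TargetsA
import Pool.Agent.H23.DF.TargetsL
import Pool.Agent.H23.DM.TargetsG
import Pool.Agent.H23.DM.TargetsI
import Pool.Agent.H31.SX.TargetsD

/-!
# (TW) the twelfth moment, friable conductors
-/

set_option autoImplicit false

open NumberField NumberField.InfinitePlace MeasureTheory Set Filter Complex
open scoped nonZeroDivisors ENNReal

namespace Pool.Agent.H69.DF.TW

open Pool.Agent.H25.HK Pool.Agent.H23.LB Pool.Agent.H23.LC
open Pool.Agent.H29.DW (dg Rl lf wv Pos Wg cpar Ci om zs rv Wt)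
open Pool.Agent.H31.SW (PP dK)
open Pool.Agent.H29.DW (PrG)
open Pool.Agent.H29.TC (LC MC)
open Pool.Agent.H31.SX (LK)
open Pool.Agent.H27.TM (Cls Sp1 InT cq)
open Pool.Agent.H23.DM (QB Clq LoC SpE D_TC D_SP)
open Pool.Agent.H23.DF

/-! ### Dyadic intervals -/

/-- the exponent of the dyadic interval of `x` -/
private noncomputable def lg (x : ℝ) : ℕ := Nat.log 2 ⌊x⌋₊

private theorem lg_le {x : ℝ} (hx : 1 ≤ x) : (2 : ℝ) ^ lg x ≤ x := by
  have h1 : 1 ≤ ⌊x⌋₊ := Nat.le_floor (by exact_mod_cast hx)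
  have h2 : 2 ^ lg x ≤ ⌊x⌋₊ := Nat.pow_log_le_self 2 (by omega)
  calc (2 : ℝ) ^ lg x = ((2 ^ lg x : ℕ) : ℝ) := by push_cast; rfl
    _ ≤ (⌊x⌋₊ : ℝ) := by exact_mod_cast h2
    _ ≤ x := Nat.floor_le (by linarith)

private theorem lt_lg (x : ℝ) : x < 2 * (2 : ℝ) ^ lg x := by
  have h2 : ⌊x⌋₊ < 2 ^ (lg x + 1) := Nat.lt_pow_succ_log_self (by norm_num) _
  have h3 : (⌊x⌋₊ : ℝ) + 1 ≤ 2 ^ (lg x + 1) := by exact_mod_cast h2
  calc x < (⌊x⌋₊ : ℝ) + 1 := Nat.lt_floor_add_one x
    _ ≤ 2 ^ (lg x + 1) := h3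
    _ = 2 * 2 ^ lg x := by ring

private theorem lg_mono {x y : ℝ} (h : x ≤ y) : lg x ≤ lg y :=
  Nat.log_mono_right (Nat.floor_le_floor h)

/-- the number of the dyadic intervals -/
private theorem lg_bound (δ : ℝ) (hδ : 0 < δ) (T : ℝ) (hT : 1 ≤ T) :
    ((lg (2 * T) + 1 : ℕ) : ℝ) ≤ (2 + 2 / δ) * T ^ δ := by
  have h1 : (2 : ℝ) ^ lg (2 * T) ≤ 2 * T := lg_le (by linarith)
  have h2 : (lg (2 * T) : ℝ) * Real.log 2 ≤ Real.log 2 + Real.log T := by
    rw [← Real.log_mul (by norm_num) (by linarith), ← Real.log_pow]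
    exact Real.log_le_log (by positivity) h1
  have h3 : 1 / 2 < Real.log 2 := by
    have := Real.log_two_gt_d9
    linarith
  have h4 : Real.log T ≤ T ^ δ / δ := Real.log_le_rpow_div (by linarith) hδ
  have h5 : 1 ≤ T ^ δ := Real.one_le_rpow hT hδ.le
  have h6 : 0 ≤ Real.log T := Real.log_nonneg hT
  have h7 : (lg (2 * T) : ℝ) ≤ 1 + 2 * Real.log T := by
    have h8 : (lg (2 * T) : ℝ) * Real.log 2 ≤ (1 + 2 * Real.log T) * Real.log 2 := by
      nlinarith
    exact le_of_mul_le_mul_right h8 (by linarith)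
  push_cast
  have h9 : (2 + 2 / δ) * T ^ δ = 2 * T ^ δ + 2 * (T ^ δ / δ) := by ring
  rw [h9]
  linarith

/-! ### Frequencies -/

section

variable {K : Type} [Field K] [NumberField K] {f : Ideal (𝓞 K)}

/-- the frequencies are bounded -/
private theorem cq_norm (q : HG K f × ℝ) (v : InfinitePlace K) :
    ‖cq q v‖ ≤ 2 * |q.2 - q.1.ν v| + |(q.1.k v : ℝ)| := by
  unfold cq cpar
  split_ifs with h
  · rw [Complex.norm_real, Real.norm_eq_abs]
    have h1 := abs_nonneg (q.2 - q.1.ν v)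
    have h2 := abs_nonneg (q.1.k v : ℝ)
    linarith
  · refine (norm_add_le _ _).trans ?_
    rw [Complex.norm_real, Real.norm_eq_abs, abs_mul, norm_mul, Complex.norm_I, mul_one,
      Complex.norm_intCast]
    norm_num

/-- the frequencies are real at the real places -/
private theorem cq_real (q : HG K f × ℝ) (v : InfinitePlace K) : Rl (rv v) (cq q v) := by
  unfold cq cpar Rl rv
  split_ifs with h <;> simp [h]

end

private lemma one_le_dK (K : Type) [Field K] [NumberField K] : 1 ≤ dK K := by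
  unfold Pool.Agent.H31.SW.dK
  have h := Int.one_le_abs (discr_ne_zero K)
  exact_mod_cast h

private lemma one_le_PP {K : Type} [Field K] [NumberField K] (τ : InfinitePlace K → ℝ)
    (h : ∀ v, 1 ≤ τ v) : 1 ≤ PP τ := by
  classical
  unfold Pool.Agent.H31.SW.PP
  calc (1 : ℝ) = ∏ _v : InfinitePlace K, (1 : ℝ) := by simp
    _ ≤ ∏ v, τ v ^ v.mult := Finset.prod_le_prod (fun v _ => by norm_num)
        fun v _ => one_le_pow₀ (h v)

private lemma PP_rpow {K : Type} [Field K] [NumberField K] (τ : InfinitePlace K → ℝ)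
    (θ : ℝ) (h : ∀ v, 1 ≤ τ v) : PP (fun v => τ v ^ θ) = PP τ ^ θ := by
  classical
  unfold Pool.Agent.H31.SW.PP
  rw [← Real.finsetProd_rpow _ _ (fun v _ => pow_nonneg (by linarith [h v]) _)]
  apply Finset.prod_congr rfl
  intro v _
  have h0 : 0 ≤ τ v := by linarith [h v]
  rw [← Real.rpow_natCast, ← Real.rpow_natCast, ← Real.rpow_mul h0, ← Real.rpow_mul h0,
    mul_comm]

private lemma one_le_Nf {K : Type} [Field K] [NumberField K] (f : Ideal (𝓞 K)) (h : f ≠ ⊥) :
    1 ≤ Nf K f := by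
  unfold Pool.Agent.H23.LB.Nf
  have h1 : Ideal.absNorm f ≠ 0 := by
    intro h2
    exact h (Ideal.absNorm_eq_zero_iff.mp h2)
  exact_mod_cast Nat.one_le_iff_ne_zero.mpr h1

/-! ### Large values: the computation -/

/-- the choice of the exponent -/
private lemma theta_exists (T g : ℝ) (hg6 : T < g ^ 6) (hT : 1 ≤ T) (hg0 : 0 < g)
    (hg3 : g ^ 3 ≤ T) : ∃ θ : ℝ, 1 / 6 ≤ θ ∧ θ ≤ 1 / 3 ∧ T ^ θ = g := by
  have hg1 : 1 < g := by
    by_contra h
    have h1 : g ^ 6 ≤ 1 := pow_le_one₀ hg0.le (not_lt.mp h)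
    linarith
  have hT1 : 1 < T := lt_of_lt_of_le (one_lt_pow₀ hg1 (by norm_num)) hg3
  have hlogT : 0 < Real.log T := Real.log_pos hT1
  have hlogg : 0 < Real.log g := Real.log_pos hg1
  refine ⟨Real.log g / Real.log T, ?_, ?_, ?_⟩
  · have h1 : Real.log T ≤ Real.log (g ^ 6) := Real.log_le_log (by linarith) hg6.le
    rw [Real.log_pow] at h1
    push_cast at h1
    rw [div_le_div_iff₀ (by norm_num) hlogT]
    linarith
  · have h1 : Real.log (g ^ 3) ≤ Real.log T := Real.log_le_log (by positivity) hg3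
    rw [Real.log_pow] at h1
    push_cast at h1
    rw [div_le_div_iff₀ hlogT (by norm_num)]
    linarith
  · rw [Real.rpow_def_of_pos (by linarith), mul_div_cancel₀ _ hlogT.ne',
      Real.exp_log (by linarith)]

/-- one exponent -/
private lemma lv1 {W Δ N V C B e θ g : ℝ} (hW : 1 ≤ W) (hΔ : 1 ≤ Δ) (hN : 0 ≤ N) (hV : 0 < V)
    (hC : 0 ≤ C) (hg : 0 < g) (h1 : W ^ θ ≤ g * Δ) (h2 : g ≤ W ^ θ * Δ)
    (h3 : V ^ 2 * N ≤ C * (Δ ^ B * W ^ e * (N * g + N ^ (1 / 2 : ℝ) * (W / g ^ 2))))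
    (h4 : 2 * C * Δ ^ (B + 1) * W ^ e * W ^ θ ≤ V ^ 2) :
    N * V ^ 4 ≤ 4 * C ^ 2 * Δ ^ (2 * B + 4) * W ^ (2 + 2 * e - 4 * θ) := by
  have hW0 : 0 < W := by linarith
  have hΔ0 : 0 < Δ := by linarith
  set s : ℝ := N ^ (1 / 2 : ℝ) with hs
  have hs0 : 0 ≤ s := Real.rpow_nonneg hN _
  have hss : N = s ^ 2 := by
    rw [hs, ← Real.sqrt_eq_rpow, Real.sq_sqrt hN]
  have ha : Δ ^ (B + 1) = Δ ^ B * Δ := by rw [Real.rpow_add hΔ0, Real.rpow_one]
  have hx0 : 0 < W ^ θ := Real.rpow_pos_of_pos hW0 _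
  have he0 : 0 < W ^ e := Real.rpow_pos_of_pos hW0 _
  have hB0 : 0 < Δ ^ B := Real.rpow_pos_of_pos hΔ0 _
  -- the first term
  have h5 : C * (Δ ^ B * W ^ e * (N * g)) ≤ V ^ 2 * N / 2 := by
    have h6 : C * (Δ ^ B * W ^ e * (N * g)) ≤ C * (Δ ^ B * W ^ e * (N * (W ^ θ * Δ))) := by
      apply mul_le_mul_of_nonneg_left _ hC
      apply mul_le_mul_of_nonneg_left _ (by positivity)
      exact mul_le_mul_of_nonneg_left h2 hN
    have h7 : C * (Δ ^ B * W ^ e * (N * (W ^ θ * Δ))) =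
        (2 * C * Δ ^ (B + 1) * W ^ e * W ^ θ) * N / 2 := by
      rw [ha]
      ring
    have h8 : (2 * C * Δ ^ (B + 1) * W ^ e * W ^ θ) * N ≤ V ^ 2 * N :=
      mul_le_mul_of_nonneg_right h4 hN
    linarith
  -- the second term
  have h6 : W / g ^ 2 ≤ W * Δ ^ 2 / (W ^ θ) ^ 2 := by
    rw [div_le_div_iff₀ (by positivity) (by positivity)]
    have h7 : (W ^ θ) ^ 2 ≤ (g * Δ) ^ 2 := pow_le_pow_left₀ hx0.le h1 2
    calc W * (W ^ θ) ^ 2 ≤ W * (g * Δ) ^ 2 := mul_le_mul_of_nonneg_left h7 hW0.le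
      _ = W * Δ ^ 2 * g ^ 2 := by ring
  set Q : ℝ := C * Δ ^ (B + 2) * W ^ (1 + e - 2 * θ) with hQ
  have hQ' : C * (Δ ^ B * W ^ e * (s * (W * Δ ^ 2 / (W ^ θ) ^ 2))) = s * Q := by
    have h7 : W ^ (1 + e - 2 * θ) = W * W ^ e / (W ^ θ) ^ 2 := by
      rw [Real.rpow_sub hW0, Real.rpow_add hW0, Real.rpow_one, mul_comm (2 : ℝ) θ,
        Real.rpow_mul hW0.le]
      norm_num
    have h8 : Δ ^ (B + 2) = Δ ^ B * Δ ^ 2 := by
      rw [Real.rpow_add hΔ0]
      norm_num
    rw [hQ, h7, h8]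
    ring
  have h7 : C * (Δ ^ B * W ^ e * (s * (W / g ^ 2))) ≤ s * Q := by
    rw [← hQ']
    apply mul_le_mul_of_nonneg_left _ hC
    apply mul_le_mul_of_nonneg_left _ (by positivity)
    exact mul_le_mul_of_nonneg_left h6 hs0
  have h8 : V ^ 2 * N ≤ 2 * (s * Q) := by
    have h9 : C * (Δ ^ B * W ^ e * (N * g + s * (W / g ^ 2))) =
      C * (Δ ^ B * W ^ e * (N * g)) + C * (Δ ^ B * W ^ e * (s * (W / g ^ 2))) := by ring
    rw [h9] at h3
    linarith
  have hQ0 : 0 ≤ Q := by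
    rw [hQ]
    positivity
  have hQ2 : (2 * Q) ^ 2 = 4 * C ^ 2 * Δ ^ (2 * B + 4) * W ^ (2 + 2 * e - 4 * θ) := by
    have e1 : (Δ ^ (B + 2)) ^ 2 = Δ ^ (2 * B + 4) := by
      rw [← Real.rpow_natCast, ← Real.rpow_mul hΔ0.le]
      congr 1
      push_cast
      ring
    have e2 : (W ^ (1 + e - 2 * θ)) ^ 2 = W ^ (2 + 2 * e - 4 * θ) := by
      rw [← Real.rpow_natCast, ← Real.rpow_mul hW0.le]
      congr 1
      push_cast
      ring
    rw [hQ, ← e1, ← e2]
    ring
  rw [← hQ2]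
  rcases hs0.eq_or_lt with h0 | h0
  · rw [hss, ← h0]
    have : 0 ≤ (2 * Q) ^ 2 := by positivity
    simpa using this
  · have h9 : V ^ 2 * s ≤ 2 * Q := by
      have h10 : s * (V ^ 2 * s) ≤ s * (2 * Q) := by
        calc s * (V ^ 2 * s) = V ^ 2 * N := by rw [hss]; ring
          _ ≤ 2 * (s * Q) := h8
          _ = s * (2 * Q) := by ring
      exact le_of_mul_le_mul_left h10 h0
    calc N * V ^ 4 = (V ^ 2 * s) ^ 2 := by rw [hss]; ring
      _ ≤ (2 * Q) ^ 2 := pow_le_pow_left₀ (by positivity) h9 2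

/-- the number of the large values -/
private lemma lv {W Δ N V C Ca B e : ℝ} (hW : 1 ≤ W) (hΔ : 1 ≤ Δ) (hN : N = 0 ∨ 1 ≤ N)
    (hV : 0 < V) (hC : 1 ≤ C) (hCa : 1 ≤ Ca) (he : 0 < e)
    (h1 : ∀ θ : ℝ, 1 / 6 ≤ θ → θ ≤ 1 / 3 → ∃ g : ℝ, 0 < g ∧ W ^ θ ≤ g * Δ ∧ g ≤ W ^ θ * Δ ∧
      V ^ 2 * N ≤ C * (Δ ^ B * W ^ e * (N * g + N ^ (1 / 2 : ℝ) * (W / g ^ 2))))
    (h2 : N ≤ Ca * (Δ ^ 3 * W ^ (1 + e))) :
    N * V ^ 12 ≤ 64 * Ca * C ^ 6 * (Δ ^ (6 * B + 12) * W ^ (2 + 7 * e)) := by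
  have hW0 : 0 < W := by linarith
  have hΔ0 : 0 < Δ := by linarith
  have hC0 : 0 < C := by linarith
  have hN0 : 0 ≤ N := by
    rcases hN with h | h
    · exact h.ge
    · linarith
  set A : ℝ := 2 * C * Δ ^ (B + 1) * W ^ e with hA
  have hA0 : 0 < A := by
    rw [hA]
    positivity
  have hA4 : A ^ 4 = 16 * C ^ 4 * Δ ^ (4 * B + 4) * W ^ (4 * e) := by
    have e1 : (Δ ^ (B + 1)) ^ 4 = Δ ^ (4 * B + 4) := by
      rw [← Real.rpow_natCast, ← Real.rpow_mul hΔ0.le]
      congr 1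
      push_cast
      ring
    have e2 : (W ^ e) ^ 4 = W ^ (4 * e) := by
      rw [← Real.rpow_natCast, ← Real.rpow_mul hW0.le]
      congr 1
      push_cast
      ring
    rw [hA, ← e1, ← e2]
    ring
  have hA6 : A ^ 6 = 64 * C ^ 6 * Δ ^ (6 * B + 6) * W ^ (6 * e) := by
    have e1 : (Δ ^ (B + 1)) ^ 6 = Δ ^ (6 * B + 6) := by
      rw [← Real.rpow_natCast, ← Real.rpow_mul hΔ0.le]
      congr 1
      push_cast
      ring
    have e2 : (W ^ e) ^ 6 = W ^ (6 * e) := by
      rw [← Real.rpow_natCast, ← Real.rpow_mul hW0.le]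
      congr 1
      push_cast
      ring
    rw [hA, ← e1, ← e2]
    ring
  -- monotonicity of the bounds
  have hmono : ∀ (c b w : ℝ), 0 ≤ c → c ≤ 64 * Ca * C ^ 6 → b ≤ 6 * B + 12 → w ≤ 2 + 7 * e →
      c * (Δ ^ b * W ^ w) ≤ 64 * Ca * C ^ 6 * (Δ ^ (6 * B + 12) * W ^ (2 + 7 * e)) := by
    intro c b w hc0 hc hb hw
    refine mul_le_mul hc ?_ (by positivity) (by positivity)
    exact mul_le_mul (Real.rpow_le_rpow_of_exponent_le hΔ hb)
      (Real.rpow_le_rpow_of_exponent_le hW hw) (by positivity) (by positivity)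
  have hCC : 64 * C ^ 6 ≤ 64 * Ca * C ^ 6 := by
    have h3 : 1 * (64 * C ^ 6) ≤ Ca * (64 * C ^ 6) :=
      mul_le_mul_of_nonneg_right hCa (by positivity)
    linarith
  rcases le_or_gt (V ^ 12) (A ^ 6 * W) with h3 | h3
  · -- small values
    calc N * V ^ 12 ≤ (Ca * (Δ ^ 3 * W ^ (1 + e))) * (A ^ 6 * W) :=
          mul_le_mul h2 h3 (by positivity) (by positivity)
      _ = 64 * Ca * C ^ 6 * (Δ ^ (6 * B + 9) * W ^ (2 + 7 * e)) := by
          have e1 : Δ ^ (6 * B + 9) = Δ ^ (6 * B + 6) * Δ ^ 3 := by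
            rw [← Real.rpow_natCast, ← Real.rpow_add hΔ0]
            congr 1
            push_cast
            ring
          have e2 : W ^ (2 + 7 * e) = W ^ (1 + e) * (W ^ (6 * e) * W) := by
            nth_rewrite 4 [← Real.rpow_one W]
            rw [← Real.rpow_add hW0, ← Real.rpow_add hW0]
            congr 1
            ring
          rw [hA6, e1, e2]
          ring
      _ ≤ _ := hmono _ _ _ (by positivity) le_rfl (by linarith) le_rfl
  · set g : ℝ := V ^ 2 / A with hg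
    have hg0 : 0 < g := by
      rw [hg]
      positivity
    have hgA : A * g = V ^ 2 := by
      rw [hg]
      field_simp
    have hg6 : W < g ^ 6 := by
      rw [hg, div_pow, lt_div_iff₀ (by positivity)]
      calc W * A ^ 6 = A ^ 6 * W := by ring
        _ < V ^ 12 := h3
        _ = (V ^ 2) ^ 6 := by ring
    rcases le_or_gt (g ^ 3) W with h4 | h4
    · -- medium values
      obtain ⟨θ, hθ6, hθ3, hθ⟩ := theta_exists W g hg6 hW hg0 h4
      obtain ⟨g', hg'0, h5, h6, h7⟩ := h1 θ hθ6 hθ3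
      have h8 := lv1 (e := e) (B := B) hW hΔ hN0 hV hC0.le hg'0 h5 h6 h7
        (by rw [← hA, hθ, hgA])
      have hV8 : V ^ 8 = A ^ 4 * W ^ (4 * θ) := by
        have e1 : W ^ (4 * θ) = (W ^ θ) ^ 4 := by
          rw [← Real.rpow_natCast, ← Real.rpow_mul hW0.le]
          congr 1
          push_cast
          ring
        rw [e1, hθ, ← mul_pow, hgA]
        ring
      calc N * V ^ 12 = (N * V ^ 4) * V ^ 8 := by ring
        _ ≤ (4 * C ^ 2 * Δ ^ (2 * B + 4) * W ^ (2 + 2 * e - 4 * θ)) * V ^ 8 :=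
            mul_le_mul_of_nonneg_right h8 (by positivity)
        _ = 64 * C ^ 6 * (Δ ^ (6 * B + 8) * W ^ (2 + 6 * e)) := by
            have e1 : Δ ^ (6 * B + 8) = Δ ^ (2 * B + 4) * Δ ^ (4 * B + 4) := by
              rw [← Real.rpow_add hΔ0]
              congr 1
              ring
            have e2 : W ^ (2 + 6 * e) = W ^ (2 + 2 * e - 4 * θ) * (W ^ (4 * e) * W ^ (4 * θ)) := by
              rw [← Real.rpow_add hW0, ← Real.rpow_add hW0]
              congr 1
              ring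
            rw [hV8, hA4, e1, e2]
            ring
        _ ≤ _ := hmono _ _ _ (by positivity) hCC (by linarith) (by linarith)
    · -- large values
      obtain ⟨g', hg'0, h5, h6, h7⟩ := h1 (1 / 3) (by norm_num) le_rfl
      have h8 := lv1 (e := e) (B := B) hW hΔ hN0 hV hC0.le hg'0 h5 h6 h7 (by
        rw [← hA, ← hgA]
        apply mul_le_mul_of_nonneg_left _ hA0.le
        have h9 : W ^ (1 / 3 : ℝ) ≤ (g ^ 3) ^ (1 / 3 : ℝ) :=
          Real.rpow_le_rpow hW0.le h4.le (by norm_num)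
        have h10 : (g ^ 3) ^ (1 / 3 : ℝ) = g := by
          rw [← Real.rpow_natCast, ← Real.rpow_mul hg0.le]
          norm_num
        rw [h10] at h9
        exact h9)
      rcases hN with hN | hN
      · rw [hN]
        have : 0 ≤ 64 * Ca * C ^ 6 * (Δ ^ (6 * B + 12) * W ^ (2 + 7 * e)) := by positivity
        simpa using this
      · set Q : ℝ := 4 * C ^ 2 * Δ ^ (2 * B + 4) * W ^ (2 + 2 * e - 4 * (1 / 3)) with hQ
        have hQ0 : 0 ≤ Q := by
          rw [hQ]
          positivity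
        have h9 : V ^ 4 ≤ Q := by
          have : 1 * V ^ 4 ≤ N * V ^ 4 := mul_le_mul_of_nonneg_right hN (by positivity)
          linarith
        have hQ3 : Q ^ 3 = 64 * C ^ 6 * (Δ ^ (6 * B + 12) * W ^ (2 + 6 * e)) := by
          have e1 : (Δ ^ (2 * B + 4)) ^ 3 = Δ ^ (6 * B + 12) := by
            rw [← Real.rpow_natCast, ← Real.rpow_mul hΔ0.le]
            congr 1
            push_cast
            ring
          have e2 : (W ^ (2 + 2 * e - 4 * (1 / 3))) ^ 3 = W ^ (2 + 6 * e) := by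
            rw [← Real.rpow_natCast, ← Real.rpow_mul hW0.le]
            congr 1
            push_cast
            ring
          rw [hQ, ← e1, ← e2]
          ring
        calc N * V ^ 12 = (N * V ^ 4) * (V ^ 4) ^ 2 := by ring
          _ ≤ Q * Q ^ 2 := mul_le_mul h8 (pow_le_pow_left₀ (by positivity) h9 2)
              (by positivity) hQ0
          _ = Q ^ 3 := by ring
          _ = 64 * C ^ 6 * (Δ ^ (6 * B + 12) * W ^ (2 + 6 * e)) := hQ3
          _ ≤ _ := hmono _ _ _ (by positivity) hCC le_rfl (by linarith)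

/-- the sum over the dyadic intervals -/
private lemma dy {ι : Type*} (S : Finset ι) (F : ι → ℝ) (hF : ∀ q ∈ S, 0 ≤ F q) (X δ A : ℝ)
    (hX : 1 ≤ X) (hδ : 0 < δ) (hA : (S.card : ℝ) ≤ A)
    (h : ∀ (S' : Finset ι) (V : ℝ), S' ⊆ S → 0 < V → (∀ q ∈ S', V ≤ F q) →
      (S'.card : ℝ) * V ^ 12 ≤ X) :
    ∑ q ∈ S, F q ^ 12 ≤ A + (2 + 2 / δ) * X ^ δ * (2 ^ 12 * X) := by
  classical
  rw [← Finset.sum_filter_add_sum_filter_not S (fun q => F q < 1)]
  apply add_le_add
  · calc ∑ q ∈ S with F q < 1, F q ^ 12 ≤ ∑ _q ∈ S.filter (fun q => F q < 1), (1 : ℝ) := by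
          apply Finset.sum_le_sum
          intro q hq
          rw [Finset.mem_filter] at hq
          exact pow_le_one₀ (hF q hq.1) hq.2.le
      _ = ((S.filter (fun q => F q < 1)).card : ℝ) := by
          rw [Finset.sum_const, nsmul_eq_mul, mul_one]
      _ ≤ (S.card : ℝ) := by exact_mod_cast Finset.card_filter_le _ _
      _ ≤ A := hA
  · set S₁ : Finset ι := S.filter (fun q => ¬ F q < 1) with hS₁
    have hm : ∀ q ∈ S₁, q ∈ S ∧ 1 ≤ F q := by
      intro q hq
      rw [hS₁, Finset.mem_filter, not_lt] at hq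
      exact hq
    have hmaps : ∀ q ∈ S₁, lg (F q) ∈ Finset.range (lg (2 * X) + 1) := by
      intro q hq
      obtain ⟨h1, h2⟩ := hm q hq
      rw [Finset.mem_range]
      apply Nat.lt_succ_of_le
      apply lg_mono
      have h3 := h {q} (F q) (by simpa using h1) (by linarith) (by
        intro q' hq'
        rw [Finset.mem_singleton] at hq'
        rw [hq'])
      rw [Finset.card_singleton, Nat.cast_one, one_mul] at h3
      have h4 : F q ≤ F q ^ 12 := le_self_pow₀ h2 (by norm_num)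
      linarith
    rw [← Finset.sum_fiberwise_of_maps_to hmaps]
    have hclass : ∀ b ∈ Finset.range (lg (2 * X) + 1),
        ∑ q ∈ S₁ with lg (F q) = b, F q ^ 12 ≤ 2 ^ 12 * X := by
      intro b _
      have hb : ∀ q ∈ S₁.filter (fun q => lg (F q) = b), (2 : ℝ) ^ b ≤ F q ∧
          F q ≤ 2 * (2 : ℝ) ^ b := by
        intro q hq
        rw [Finset.mem_filter] at hq
        obtain ⟨h1, h2⟩ := hq
        rw [← h2]
        exact ⟨lg_le (hm q h1).2, (lt_lg _).le⟩
      have h3 := h (S₁.filter (fun q => lg (F q) = b)) ((2 : ℝ) ^ b)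
        (fun q hq => (hm q (Finset.mem_filter.1 hq).1).1) (by positivity) fun q hq => (hb q hq).1
      calc ∑ q ∈ S₁ with lg (F q) = b, F q ^ 12
          ≤ ∑ _q ∈ S₁.filter (fun q => lg (F q) = b), (2 * (2 : ℝ) ^ b) ^ 12 := by
            apply Finset.sum_le_sum
            intro q hq
            exact pow_le_pow_left₀ (hF q (hm q (Finset.mem_filter.1 hq).1).1) (hb q hq).2 12
        _ = 2 ^ 12 * (((S₁.filter (fun q => lg (F q) = b)).card : ℝ) * ((2 : ℝ) ^ b) ^ 12) := by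
            rw [Finset.sum_const, nsmul_eq_mul]
            ring
        _ ≤ 2 ^ 12 * X := mul_le_mul_of_nonneg_left h3 (by positivity)
    refine (Finset.sum_le_card_nsmul _ _ _ hclass).trans ?_
    rw [nsmul_eq_mul, Finset.card_range]
    apply mul_le_mul_of_nonneg_right _ (by positivity)
    exact lg_bound δ hδ X hX

/-- the final computation -/
private lemma fin {W Δ C₁ C₂ B e X A Z : ℝ} (hW : 1 ≤ W) (hΔ : 1 ≤ Δ) (hC₁ : 1 ≤ C₁)
    (hC₂ : 1 ≤ C₂) (hB : 3 ≤ B) (he : 0 < e) (he1 : e ≤ 1) (hX : X = C₁ * (Δ ^ B * W ^ (2 + 7 * e)))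
    (hA : A = C₂ * (Δ ^ 3 * W ^ (1 + e)))
    (h : Z ≤ A + (2 + 2 / e) * X ^ e * (2 ^ 12 * X)) :
    Z ≤ (C₂ + (2 + 2 / e) * 2 ^ 12 * C₁ ^ 2) * (Δ ^ (2 * B) * W ^ (2 + 16 * e)) := by
  have hW0 : 0 < W := by linarith
  have hΔ0 : 0 < Δ := by linarith
  have hC₁0 : 0 < C₁ := by linarith
  have hC₂0 : 0 < C₂ := by linarith
  have h1 : A ≤ C₂ * (Δ ^ (2 * B) * W ^ (2 + 16 * e)) := by
    rw [hA]
    apply mul_le_mul_of_nonneg_left _ (by linarith)
    refine mul_le_mul ?_ (Real.rpow_le_rpow_of_exponent_le hW (by linarith)) (by positivity)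
      (by positivity)
    rw [← Real.rpow_natCast]
    exact Real.rpow_le_rpow_of_exponent_le hΔ (by push_cast; linarith)
  have h2 : X ^ e * X ≤ C₁ ^ 2 * (Δ ^ (2 * B) * W ^ (2 + 16 * e)) := by
    have e1 : X ^ e * X = C₁ ^ (1 + e) * (Δ ^ (B * (1 + e)) * W ^ ((2 + 7 * e) * (1 + e))) := by
      have hX0 : 0 < X := by
        rw [hX]
        positivity
      have e2 : X ^ e * X = X ^ (1 + e) := by
        rw [Real.rpow_add hX0, Real.rpow_one, mul_comm]
      rw [e2, hX, Real.mul_rpow (by positivity) (by positivity), Real.mul_rpow (by positivity)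
        (by positivity), ← Real.rpow_mul hΔ0.le, ← Real.rpow_mul hW0.le]
    rw [e1]
    refine mul_le_mul ?_ (mul_le_mul ?_ ?_ (by positivity) (by positivity)) (by positivity)
      (by positivity)
    · rw [← Real.rpow_natCast]
      exact Real.rpow_le_rpow_of_exponent_le hC₁ (by push_cast; linarith)
    · exact Real.rpow_le_rpow_of_exponent_le hΔ (by nlinarith)
    · exact Real.rpow_le_rpow_of_exponent_le hW (by nlinarith)
  have he2 : 0 ≤ 2 + 2 / e := by positivity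
  calc Z ≤ A + (2 + 2 / e) * X ^ e * (2 ^ 12 * X) := h
    _ = A + (2 + 2 / e) * 2 ^ 12 * (X ^ e * X) := by ring
    _ ≤ C₂ * (Δ ^ (2 * B) * W ^ (2 + 16 * e)) +
        (2 + 2 / e) * 2 ^ 12 * (C₁ ^ 2 * (Δ ^ (2 * B) * W ^ (2 + 16 * e))) :=
        add_le_add h1 (mul_le_mul_of_nonneg_left h2 (by positivity))
    _ = _ := by ring

/-! ### The number of the pairs -/

/-- the trivial bound -/
private theorem count (hTC : D_TC) (hSP : D_SP) (n : ℕ) (hn : 0 < n) :
    ∃ C : ℝ, 1 ≤ C ∧ ∀ e : ℝ, 0 < e → e ≤ 1 →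
      ∀ (K : Type) [Field K] [NumberField K], Module.finrank ℚ K = n →
      ∀ (l k : Ideal (𝓞 K)), LK l k → ∀ η : HG K (l * k) → 𝓞 K ⧸ k → ℂ, LoC K l k η →
      ∀ (T : InfinitePlace K → ℝ) (S : Finset (HG K (l * k) × ℝ)),
      (∀ v, 1 ≤ T v) → (∀ q ∈ S, PrG k q.1) → InT T S → Sp1 S →
      (S.card : ℝ) ≤ C * (2 + 2 / e) ^ n * ((dK K * Nf K l) ^ 3 * (Nf K k * PP T) ^ (1 + e)) := by
  classical
  obtain ⟨C₁, hC₁, hTC⟩ := hTC n hn
  obtain ⟨C₂, hC₂, hSP⟩ := hSP n hn
  refine ⟨C₁ * C₂ * 2 ^ n, one_le_mul_of_one_le_of_one_le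
    (one_le_mul_of_one_le_of_one_le hC₁ hC₂) (one_le_pow₀ (by norm_num)), ?_⟩
  intro e he he1 K _ _ hK l k hlk η hη T S hT hPr hin hsp
  have hplaces : Fintype.card (InfinitePlace K) ≤ n := by
    have h2 := card_add_two_mul_card_eq_rank K
    have h3 := card_eq_nrRealPlaces_add_nrComplexPlaces K
    omega
  have hmult : ∑ v : InfinitePlace K, v.mult = n := by
    rw [← hK]
    exact sum_mult_eq
  have hNk : 1 ≤ Nf K k := one_le_Nf _ hlk.k_ne
  have hNl : 1 ≤ Nf K l := one_le_Nf _ hlk.l_ne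
  have hd := one_le_dK K
  have hPT : 1 ≤ PP T := one_le_PP T hT
  have hNk0 : 0 < Nf K k := by linarith
  have hPT0 : 0 < PP T := by linarith
  set D₀ : ℝ := (dK K * Nf K l) ^ 3 with hD₀
  have hD1 : 1 ≤ D₀ := one_le_pow₀ (one_le_mul_of_one_le_of_one_le hd hNl)
  set c₀ : ℝ := 2 + 2 / e with hc₀
  have hc1 : 1 ≤ c₀ := by
    have : 0 ≤ 2 / e := by positivity
    rw [hc₀]
    linarith
  -- the classes
  set a : HG K (l * k) × ℝ → InfinitePlace K → ℕ := fun q v => lg (1 + ‖cq q v‖) with ha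
  set P : Finset (InfinitePlace K → ℕ) :=
    Fintype.piFinset (fun v => Finset.range (lg (2 * T v) + 1)) with hP
  have hbound : ∀ q ∈ S, ∀ v, 1 + ‖cq q v‖ ≤ 2 * T v := by
    intro q hq v
    have h1 := cq_norm q v
    have h2 := hin q hq v
    have h3 := abs_nonneg (q.2 - q.1.ν v)
    have h4 := abs_nonneg (q.1.k v : ℝ)
    linarith [hT v]
  have hmaps : ∀ q ∈ S, a q ∈ P := by
    intro q hq
    rw [hP, Fintype.mem_piFinset]
    intro v
    rw [Finset.mem_range]
    exact Nat.lt_succ_of_le (lg_mono (hbound q hq v))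
  rw [Finset.card_eq_sum_card_fiberwise hmaps]
  push_cast
  have hclass : ∀ b ∈ P, ((S.filter fun q => a q = b).card : ℝ) ≤
      C₁ * (C₂ * D₀ * (Nf K k * (2 ^ n * PP T))) := by
    intro b hb
    rcases (S.filter (fun q => a q = b)).eq_empty_or_nonempty with he | ⟨q₀, hq₀⟩
    · rw [he, Finset.card_empty, Nat.cast_zero]
      positivity
    have hq₀S := (Finset.mem_filter.1 hq₀).1
    have hq₀b := (Finset.mem_filter.1 hq₀).2
    have hb2 : ∀ v, (2 : ℝ) ^ b v ≤ 2 * T v := fun v => by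
      rw [← hq₀b]
      refine (lg_le ?_).trans (hbound q₀ hq₀S v)
      have := norm_nonneg (cq q₀ v)
      linarith
    have hprod : PP (fun v => (2 : ℝ) ^ b v) ≤ 2 ^ n * PP T := by
      unfold PP
      calc ∏ v : InfinitePlace K, ((2 : ℝ) ^ b v) ^ v.mult
          ≤ ∏ v : InfinitePlace K, (2 * T v) ^ v.mult :=
            Finset.prod_le_prod (fun v _ => by positivity)
              fun v _ => pow_le_pow_left₀ (by positivity) (hb2 v) _
        _ = 2 ^ n * ∏ v : InfinitePlace K, T v ^ v.mult := by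
            simp_rw [mul_pow]
            rw [Finset.prod_mul_distrib, Finset.prod_pow_eq_pow_sum, hmult]
    have h1 := hTC K hK k (HG K (l * k) × ℝ) (S.filter fun q => a q = b) (fun q => η q.1) cq
      (fun v => (2 : ℝ) ^ b v) (C₂ * D₀) hlk.k_ne (fun v => one_le_pow₀ (by norm_num))
      (fun q hq => (hη q.1 (hPr q (Finset.mem_filter.1 hq).1)).1.mc) ?_ ?_
    · refine h1.trans ?_
      apply mul_le_mul_of_nonneg_left _ (by linarith)
      apply mul_le_mul_of_nonneg_left _ (by positivity)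
      exact mul_le_mul_of_nonneg_left hprod hNk0.le
    · intro q hq
      have hqb := (Finset.mem_filter.1 hq).2
      have hnn : ∀ v, 1 ≤ 1 + ‖cq q v‖ := fun v => by
        have := norm_nonneg (cq q v)
        linarith
      refine ⟨fun v => one_le_pow₀ (by norm_num), fun v => ?_, fun v => ?_, cq_real q⟩
      · rw [← hqb]
        exact lg_le (hnn v)
      · rw [← hqb]
        exact (lt_lg _).le
    · exact hSP K hK l k hlk η hη (S.filter fun q => a q = b)
        (fun p hp q hq => hsp p (Finset.mem_filter.1 hp).1 q (Finset.mem_filter.1 hq).1)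
        (fun q hq => hPr q (Finset.mem_filter.1 hq).1)
  refine (Finset.sum_le_card_nsmul _ _ _ hclass).trans ?_
  rw [nsmul_eq_mul]
  have hcard : (P.card : ℝ) ≤ c₀ ^ n * PP T ^ e := by
    rw [hP, Fintype.card_piFinset]
    push_cast
    simp only [Finset.card_range]
    calc ∏ v : InfinitePlace K, ((lg (2 * T v) + 1 : ℕ) : ℝ)
        ≤ ∏ v : InfinitePlace K, (c₀ * (T v ^ v.mult) ^ e) := by
          apply Finset.prod_le_prod (fun v _ => by positivity)
          intro v _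
          refine (lg_bound e he (T v) (hT v)).trans ?_
          apply mul_le_mul_of_nonneg_left _ (by positivity)
          apply Real.rpow_le_rpow (by linarith [hT v]) _ he.le
          exact le_self_pow₀ (hT v) (by
            have := v.mult_pos
            omega)
      _ = c₀ ^ Fintype.card (InfinitePlace K) * PP T ^ e := by
          rw [Finset.prod_mul_distrib, Finset.prod_const, Finset.card_univ]
          congr 1
          unfold PP
          rw [Real.finsetProd_rpow _ _ (fun v _ => by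
            have := hT v
            positivity)]
      _ ≤ c₀ ^ n * PP T ^ e := by
          apply mul_le_mul_of_nonneg_right _ (by positivity)
          exact pow_le_pow_right₀ hc1 hplaces
  have hQ0 : 0 < Nf K k * PP T := mul_pos hNk0 hPT0
  have hPQ : PP T ^ e ≤ (Nf K k * PP T) ^ e :=
    Real.rpow_le_rpow hPT0.le (le_mul_of_one_le_left hPT0.le hNk) he.le
  calc (P.card : ℝ) * (C₁ * (C₂ * D₀ * (Nf K k * (2 ^ n * PP T))))
      ≤ (c₀ ^ n * (Nf K k * PP T) ^ e) * (C₁ * (C₂ * D₀ * (Nf K k * (2 ^ n * PP T)))) := by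
        apply mul_le_mul_of_nonneg_right
          (hcard.trans (mul_le_mul_of_nonneg_left hPQ (by positivity)))
        positivity
    _ = C₁ * C₂ * 2 ^ n * c₀ ^ n * (D₀ * ((Nf K k * PP T) * (Nf K k * PP T) ^ e)) := by ring
    _ = _ := by
        rw [Real.rpow_add hQ0, Real.rpow_one]

/-! ### The twelfth moment -/

theorem pf_TW (hQT : F_QT) (hKP : F_KP) (hTC : D_TC) (hSP : D_SP)
    (hSG : Pool.Agent.H31.SX.X_SG) : F_TW := by
  classical
  intro n hn
  obtain ⟨B, hB, hQT⟩ := hQT n hn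
  obtain ⟨C₀, hC₀, hcount⟩ := count hTC hSP n hn
  refine ⟨2 * (6 * B + 12), by positivity, fun ε hε hε1 => ?_⟩
  set e : ℝ := ε / 16 with hedef
  have he : 0 < e := by
    rw [hedef]
    positivity
  have he1 : e ≤ 1 := by
    rw [hedef]
    linarith
  obtain ⟨C₁, hC₁, hQT⟩ := hQT e he he1
  set C : ℝ := 1 + C₁ with hC
  have hC1 : 1 ≤ C := by
    rw [hC]
    linarith
  set Ca : ℝ := C₀ * (2 + 2 / e) ^ n with hCa
  have hCa1 : 1 ≤ Ca := by
    have h1 : 0 ≤ 2 / e := by positivity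
    exact one_le_mul_of_one_le_of_one_le hC₀ (one_le_pow₀ (by linarith))
  refine ⟨Ca + (2 + 2 / e) * 2 ^ 12 * (64 * Ca * C ^ 6) ^ 2, by positivity, ?_⟩
  intro K _ _ hK l s k Y hSK Y' L hL T S hT hPr hin hsp
  have hlk := hSK.lk
  have hY1 : 1 ≤ Y := hSK.one
  have hk0 : k ≠ ⊥ := fun h => hlk.k_ne (by rw [h]; exact Ideal.mul_bot s)
  have hNk := one_le_Nf (s * k) hlk.k_ne
  have hNl := one_le_Nf l hlk.l_ne
  have hNr := one_le_Nf k.radical fun h => hk0 (le_bot_iff.1 (Ideal.le_radical.trans h.le))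
  have hd := one_le_dK K
  have hPT := one_le_PP T hT
  set Δ : ℝ := dK K * (Nf K l * Nf K k.radical * Y) with hΔ
  set W : ℝ := Nf K (s * k) * PP T with hW
  have hlr : 1 ≤ Nf K l * Nf K k.radical := one_le_mul_of_one_le_of_one_le hNl hNr
  have hΔ1 : 1 ≤ Δ := one_le_mul_of_one_le_of_one_le hd
    (one_le_mul_of_one_le_of_one_le hlr hY1)
  have hW1 : 1 ≤ W := one_le_mul_of_one_le_of_one_le hNk hPT
  have hΔ0 : 0 < Δ := by linarith
  have hW0 : 0 < W := by linarith
  have hdl : (dK K * Nf K l) ^ 3 ≤ Δ ^ 3 := by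
    apply pow_le_pow_left₀ (by positivity)
    calc dK K * Nf K l = dK K * (Nf K l * 1) := by ring
      _ ≤ dK K * (Nf K l * (Nf K k.radical * Y)) := by
          apply mul_le_mul_of_nonneg_left _ (by linarith)
          apply mul_le_mul_of_nonneg_left _ (by linarith)
          exact one_le_mul_of_one_le_of_one_le hNr hY1
      _ = Δ := by rw [hΔ]; ring
  have hrY : Nf K k.radical * Y ≤ Δ := by
    calc Nf K k.radical * Y = 1 * (1 * (Nf K k.radical * Y)) := by ring
      _ ≤ dK K * (Nf K l * (Nf K k.radical * Y)) := by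
          apply mul_le_mul hd _ (by positivity) (by linarith)
          exact mul_le_mul_of_nonneg_right hNl (by positivity)
      _ = Δ := by rw [hΔ]; ring
  have hr : Nf K k.radical ≤ Δ := le_trans (le_mul_of_one_le_right (by linarith) hY1) hrY
  -- the local components
  have hη : ∃ η : HG K (l * (s * k)) → 𝓞 K ⧸ (s * k) → ℂ, LoC K l (s * k) η := by
    refine ⟨fun χ => if h : PrG (s * k) χ then (hSG K l (s * k) hlk χ h).choose else 0,
      fun χ hχ => ?_⟩
    simp only [dif_pos hχ]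
    exact (hSG K l (s * k) hlk χ hχ).choose_spec
  obtain ⟨η, hη⟩ := hη
  -- the number of a subset
  have hsub : ∀ S' ⊆ S, (S'.card : ℝ) ≤ Ca * (Δ ^ 3 * W ^ (1 + e)) := by
    intro S' hS'
    refine (hcount e he he1 K hK l (s * k) hlk η hη T S' hT (fun q hq => hPr q (hS' hq))
      (fun q hq => hin q (hS' hq)) (fun p hp q hq => hsp p (hS' hp) q (hS' hq))).trans ?_
    apply mul_le_mul_of_nonneg_left _ (by linarith)
    exact mul_le_mul_of_nonneg_right hdl (by positivity)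
  -- the large values
  have hlv : ∀ (S' : Finset (HG K (l * (s * k)) × ℝ)) (V : ℝ), S' ⊆ S → 0 < V →
      (∀ q ∈ S', V ≤ ‖L q.1 (1 / 2 + q.2 * I)‖) →
      (S'.card : ℝ) * V ^ 12 ≤ 64 * Ca * C ^ 6 * (Δ ^ (6 * B + 12) * W ^ (2 + 7 * e)) := by
    intro S' V hS' hV hVL
    refine lv hW1 hΔ1 ?_ hV hC1 hCa1 he ?_ (hsub S' hS')
    · rcases Nat.eq_zero_or_pos S'.card with h | h
      · left
        rw [h, Nat.cast_zero]
      · right
        exact_mod_cast h
    · intro θ hθ6 hθ3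
      have hθ0 : 0 ≤ θ := by linarith
      obtain ⟨κ, hκ, hκ1, hκ2⟩ := hKP K l s k Y hSK θ hθ6 hθ3
      obtain ⟨bl, hbl⟩ := Set.countable_iff_exists_injOn.1 S'.countable_toSet
      have hPH : PP (fun v => T v ^ θ) = PP T ^ θ := PP_rpow T θ hT
      have hPH0 : 0 < PP T ^ θ := Real.rpow_pos_of_pos (by linarith) _
      have hWθ : W ^ θ = Nf K (s * k) ^ θ * PP T ^ θ := by
        rw [hW, Real.mul_rpow (by linarith) (by linarith)]
      have hN0 : 0 < Nf K (s * k) ^ θ := Real.rpow_pos_of_pos (by linarith) _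
      have hNκ : 0 < Nf K κ := by
        by_contra h
        have h2 : Nf K κ * (Nf K k.radical * Y) ≤ 0 :=
          mul_nonpos_of_nonpos_of_nonneg (not_lt.1 h) (by positivity)
        linarith
      refine ⟨Nf K κ * PP T ^ θ, by positivity, ?_, ?_, ?_⟩
      · rw [hWθ]
        calc Nf K (s * k) ^ θ * PP T ^ θ ≤ Nf K κ * (Nf K k.radical * Y) * PP T ^ θ :=
              mul_le_mul_of_nonneg_right hκ2 hPH0.le
          _ ≤ Nf K κ * Δ * PP T ^ θ := by
              apply mul_le_mul_of_nonneg_right _ hPH0.le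
              exact mul_le_mul_of_nonneg_left hrY hNκ.le
          _ = Nf K κ * PP T ^ θ * Δ := by ring
      · rw [hWθ]
        calc Nf K κ * PP T ^ θ ≤ Nf K (s * k) ^ θ * Nf K k.radical * PP T ^ θ :=
              mul_le_mul_of_nonneg_right hκ1 hPH0.le
          _ ≤ Nf K (s * k) ^ θ * Δ * PP T ^ θ := by
              apply mul_le_mul_of_nonneg_right _ hPH0.le
              exact mul_le_mul_of_nonneg_left hr hN0.le
          _ = Nf K (s * k) ^ θ * PP T ^ θ * Δ := by ring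
      · have h1 := hQT K hK l s k κ Y hSK hκ Y' L hL (fun v => T v ^ θ) T S' bl
          (fun v => ⟨Real.one_le_rpow (hT v) hθ0, ?_⟩) (fun q hq => hPr q (hS' hq))
          (fun q hq => hin q (hS' hq)) (fun p hp q hq => hsp p (hS' hp) q (hS' hq)) ?_
        · rw [Finset.card_image_of_injOn hbl, hPH] at h1
          have h2 : V ^ 2 * (S'.card : ℝ) ≤ ∑ q ∈ S', ‖L q.1 (1 / 2 + q.2 * I)‖ ^ 2 := by
            calc V ^ 2 * (S'.card : ℝ) = ∑ _q ∈ S', V ^ 2 := by
                  rw [Finset.sum_const, nsmul_eq_mul, mul_comm]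
              _ ≤ _ := Finset.sum_le_sum fun q hq => pow_le_pow_left₀ hV.le (hVL q hq) 2
          refine h2.trans (h1.trans ?_)
          apply mul_le_mul_of_nonneg_right _ (by positivity)
          rw [hC]
          linarith
        · have h0 : 0 ≤ T v := by linarith [hT v]
          calc (T v ^ θ) ^ 3 = T v ^ (θ * 3) := by
                rw [← Real.rpow_natCast, ← Real.rpow_mul h0]
                norm_num
            _ ≤ T v ^ (1 : ℝ) := Real.rpow_le_rpow_of_exponent_le (hT v) (by linarith)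
            _ = T v := Real.rpow_one _
        · intro p hp q hq hpq
          have h3 : p = q := hbl hp hq hpq
          subst h3
          refine ⟨fun v => ?_, fun a _ _ => rfl⟩
          rw [sub_self, sub_self, abs_zero, add_zero]
          exact Real.rpow_nonneg (by linarith [hT v]) _
  have hX1 : 1 ≤ 64 * Ca * C ^ 6 * (Δ ^ (6 * B + 12) * W ^ (2 + 7 * e)) := by
    apply one_le_mul_of_one_le_of_one_le
    · exact one_le_mul_of_one_le_of_one_le
        (one_le_mul_of_one_le_of_one_le (by norm_num) hCa1) (one_le_pow₀ hC1)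
    · exact one_le_mul_of_one_le_of_one_le (Real.one_le_rpow hΔ1 (by positivity))
        (Real.one_le_rpow hW1 (by positivity))
  have h1 := dy S (fun q => ‖L q.1 (1 / 2 + q.2 * I)‖) (fun q _ => norm_nonneg _) _ e _ hX1 he
    (hsub S subset_rfl) hlv
  have hBB : 3 ≤ 6 * B + 12 := by linarith
  have h64 : 1 ≤ 64 * Ca * C ^ 6 := one_le_mul_of_one_le_of_one_le
    (one_le_mul_of_one_le_of_one_le (by norm_num) hCa1) (one_le_pow₀ hC1)
  have h2 := fin (B := 6 * B + 12) hW1 hΔ1 h64 hCa1 hBB he he1 rfl rfl h1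
  have h3 : 2 + 16 * e = 2 + ε := by
    rw [hedef]
    ring
  rw [h3] at h2
  exact h2

end Pool.Agent.H69.DF.TW
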