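import Pool.Agent.H95.DR.Targets

/-!
# Row ARH of the board `dfx_modules`: the value of a character on a line
-/

set_option autoImplicit false

open MeasureTheory Set Filter NumberField
open scoped Real nonZeroDivisors Matrix MatrixGroups
open Pool.Agent.H31.CN Pool.Agent.H89.FM Pool.Agent.H61.FM Pool.Agent.H89.FC Pool.Agent.H95.FC
open Pool.Agent.H89.DF Pool.Agent.H95.DR

namespace Pool.Agent.H69.DF

theorem pf_RHOr (hPARr : T_PARr) (hTYR : T_TYR) (hPRN : Pool.Agent.H95.CF.T_PRN) : T_RHOr := by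
  intro K _ _ σ σ' f κ ν ψ I α β Q b hOB hVB hR
  obtain ⟨hm, hn1, hz⟩ := hTYR K σ σ' κ ν
  have hlv : ∀ v : ℤ × ℤ, v ≠ 0 → lv K α β v ≠ 0 := fun v hv h => hv (hOB.inj v h)
  have hpr : ∀ v : ℤ × ℤ, v ≠ 0 →
      (Pool.Agent.H95.CF.Pr K f (b v : Ideal (𝓞 K)) ↔ Uv f Q v) := by
    intro v hv
    rw [hPRN K f (b v : Ideal (𝓞 K)) (nonZeroDivisors.coe_ne_zero (b v))]
    have h : (nm (b v) : ℤ) = |val Q v| := hVB.nrm v hv
    unfold nm at h
    have h2 : Ideal.absNorm (b v : Ideal (𝓞 K)) = (val Q v).natAbs := by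
      rw [Int.abs_eq_natAbs] at h
      exact_mod_cast h
    unfold Uv
    rw [h2, Int.isCoprime_iff_gcd_eq_one, Int.gcd_eq_natAbs, Int.natAbs_natCast]
  refine ⟨?_, ?_, ?_⟩
  · intro v v' hv hv' hU hU' hdet
    obtain ⟨a, n, hn, hRa, hRn, he, hid⟩ :=
      hPARr K σ σ' f I α β Q b hR.pos hOB hVB v v' hv hv' hU hU' hdet
    have hn0 : (n : 𝓞 K) ≠ 0 := by
      have : (n : ℕ) ≠ 0 := by omega
      exact_mod_cast this
    have ha : a ≠ 0 := by
      rintro rfl
      rw [zero_mul] at he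
      exact mul_ne_zero hn0 (hlv v' hv') he.symm
    have htn : tyr σ σ' κ ν (n : 𝓞 K) = 1 := by
      have h := (hz (n : ℤ) (by omega)).2
      rwa [Int.cast_natCast] at h
    have e1 : tyr σ σ' κ ν a * tyr σ σ' κ ν (lv K α β v) = tyr σ σ' κ ν (lv K α β v') := by
      have h := congrArg (tyr σ σ' κ ν) he
      rw [(hm a _ ha (hlv v hv)).2, (hm _ _ hn0 (hlv v' hv')).2, htn, one_mul] at h
      exact h
    have e2 : tyr σ σ' κ ν a * ψ (b v : Ideal (𝓞 K)) = ψ (b v' : Ideal (𝓞 K)) := by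
      have h := congrArg ψ hid
      rw [hR.mul, hR.mul, hR.prc a hRa, hR.prc _ hRn, htn, one_mul] at h
      exact h
    have ha0 : tyr σ σ' κ ν a ≠ 0 := by
      intro h0
      have := hn1 a ha
      rw [h0, norm_zero] at this
      exact zero_ne_one this
    unfold rtr
    rw [← e1, ← e2, mul_inv]
    field_simp
  · intro v hv hU
    unfold rtr
    rw [norm_mul, norm_inv, hn1 _ (hlv v hv), hR.abs _ ((hpr v hv).2 hU)]
    simp
  · intro v hv hU
    exact hR.van _ fun h => hU ((hpr v hv).1 h)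

end Pool.Agent.H69.DF
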