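import Pool.Agent.H95.DR.Targets
import Pool.Agent.H24.Cls.Exist

/-!
# Row AUE of the board `dfx_modules`: the unit exists
-/

set_option autoImplicit false

open MeasureTheory Set Filter NumberField
open scoped Real nonZeroDivisors Matrix MatrixGroups
open Pool.Agent.H31.CN Pool.Agent.H89.FM Pool.Agent.H61.FM Pool.Agent.H89.FC Pool.Agent.H95.FC
open Pool.Agent.H89.DF Pool.Agent.H95.DR

namespace Pool.Agent.H69.DF

theorem hom_ext {K : Type} [Field K] [NumberField K] (σ σ' : K →+* ℝ)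
    (h : ∀ a : 𝓞 K, σ (a : K) = σ' (a : K)) : σ = σ' := by
  apply RingHom.ext
  intro x
  obtain ⟨a, b, _, hx⟩ := IsFractionRing.div_surjective (A := 𝓞 K) x
  rw [← hx, map_div₀, map_div₀]
  rw [show algebraMap (𝓞 K) K a = (a : K) from rfl, show algebraMap (𝓞 K) K b = (b : K) from rfl,
    h a, h b]

theorem pf_UEX (_hEMB : T_EMB) : T_UEX := by
  intro K _ _ D f σ σ' hRQ hf
  obtain ⟨Q, hQ⟩ := Pool.Agent.H24.Cls.exists_quad K hRQ.rk
  rw [hRQ.dis] at hQ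
  obtain ⟨δ, hδ⟩ : ∃ δ : 𝓞 K, δ = 2 * Q.w - Q.t := ⟨_, rfl⟩
  have hD : (Q.t : 𝓞 K) ^ 2 - 4 * (Q.n : 𝓞 K) = (D : 𝓞 K) := by
    have h : ((Q.t ^ 2 - 4 * Q.n : ℤ) : 𝓞 K) = ((D : ℤ) : 𝓞 K) := by
      rw [← hQ]; rfl
    push_cast at h
    exact h
  have hδ2 : δ * δ = (D : 𝓞 K) := by
    rw [hδ]
    linear_combination 4 * Q.eqn + hD
  have hcast : ∀ (n : ℕ), (((n : ℕ) : 𝓞 K) : K) = (n : K) := fun n => by simp
  have hcastz : ∀ (n : ℤ), (((n : ℤ) : 𝓞 K) : K) = (n : K) := fun n => by simp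
  have hss : ∀ τ : K →+* ℝ, τ (δ : K) * τ (δ : K) = (D : ℝ) := by
    intro τ
    have h : τ ((δ * δ : 𝓞 K) : K) = τ (((D : ℕ) : 𝓞 K) : K) := by rw [hδ2]
    rw [hcast, map_natCast, show ((δ * δ : 𝓞 K) : K) = (δ : K) * (δ : K) from rfl, map_mul] at h
    exact h
  have hne : σ (δ : K) ≠ σ' (δ : K) := by
    intro he
    apply hRQ.ne
    have hw : σ (Q.w : K) = σ' (Q.w : K) := by
      have h2 : (δ : K) = 2 * (Q.w : K) - (Q.t : K) := by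
        rw [hδ, ← hcastz Q.t]
        have h2' : ((2 : 𝓞 K) : K) = 2 := map_ofNat (algebraMap (𝓞 K) K) 2
        rw [← h2']
        exact (map_sub (algebraMap (𝓞 K) K) _ _).trans
          (congrArg (fun z => z - _) (map_mul (algebraMap (𝓞 K) K) _ _))
      rw [h2, map_sub, map_sub, map_mul, map_mul, map_intCast, map_intCast, map_ofNat,
        map_ofNat] at he
      linarith
    apply hom_ext
    intro a
    obtain ⟨c, d, rfl⟩ := Q.gen a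
    have h3 : ((((c : ℤ) : 𝓞 K) + ((d : ℤ) : 𝓞 K) * Q.w : 𝓞 K) : K) = (c : K) + d * (Q.w : K) := by
      simp
    rw [h3, map_add, map_add, map_mul, map_mul, map_intCast, map_intCast, map_intCast,
      map_intCast, hw]
  have hopp : σ' (δ : K) = -σ (δ : K) := by
    rcases mul_self_eq_mul_self_iff.1 ((hss σ).trans (hss σ').symm) with h | h
    · exact absurd h hne
    · linarith
  have hDpos : (0 : ℝ) < D := by exact_mod_cast hRQ.pos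
  obtain ⟨s, hs⟩ : ∃ s, s = σ (δ : K) := ⟨_, rfl⟩
  have hs2 : s * s = D := by rw [hs]; exact hss σ
  have hs0 : s ≠ 0 := by
    rintro rfl
    rw [mul_zero] at hs2
    exact hDpos.ne hs2
  -- not a square
  have hf0 : (0 : ℤ) < f := by exact_mod_cast hf
  have hnsq : ¬ IsSquare ((D : ℤ) * (f : ℤ) ^ 2) := by
    rintro ⟨r, hr⟩
    have h1 : (δ * f - r) * (δ * f + r) = (0 : 𝓞 K) := by
      have h2 : ((D : 𝓞 K)) * (f : 𝓞 K) ^ 2 = (r : 𝓞 K) * r := by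
        have : (((D : ℤ) * (f : ℤ) ^ 2 : ℤ) : 𝓞 K) = ((r * r : ℤ) : 𝓞 K) := by rw [hr]
        push_cast at this
        exact this
      linear_combination (f : 𝓞 K) ^ 2 * hδ2 + h2
    rcases mul_eq_zero.1 h1 with h2 | h2
    · have h3 := (Q.ind (-(f * Q.t) - r) (2 * f) (by
        push_cast
        rw [hδ] at h2
        linear_combination h2)).2
      omega
    · have h3 := (Q.ind (-(f * Q.t) + r) (2 * f) (by
        push_cast
        rw [hδ] at h2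
        linear_combination h2)).2
      omega
  obtain ⟨x, y, hxy, hy⟩ := Pell.exists_of_not_isSquare
    (mul_pos (by exact_mod_cast hRQ.pos : (0 : ℤ) < D) (pow_pos hf0 2)) hnsq
  -- the signs
  obtain ⟨y₀, hy₀, hyp⟩ : ∃ y₀ : ℤ, y₀ ^ 2 = y ^ 2 ∧ 0 < (y₀ : ℝ) * s := by
    rcases lt_or_gt_of_ne hs0 with h | h
    · refine ⟨-|y|, by rw [neg_sq, sq_abs], ?_⟩
      have : (0 : ℝ) < |(y : ℝ)| := abs_pos.2 (by exact_mod_cast hy)
      push_cast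
      nlinarith
    · refine ⟨|y|, by rw [sq_abs], ?_⟩
      have : (0 : ℝ) < |(y : ℝ)| := abs_pos.2 (by exact_mod_cast hy)
      push_cast
      exact mul_pos this h
  have hx1 : (1 : ℤ) ≤ |x| := by
    apply Int.one_le_abs
    rintro rfl
    have h1 : (0 : ℤ) ≤ (D : ℤ) * (f : ℤ) ^ 2 * y ^ 2 := by positivity
    have h2 : (0 : ℤ) ^ 2 = 0 := by norm_num
    rw [h2] at hxy
    omega
  have hx2 : |x| ^ 2 = x ^ 2 := sq_abs x
  have hpell : |x| ^ 2 - (D : ℤ) * (f : ℤ) ^ 2 * y₀ ^ 2 = 1 := by rw [hx2, hy₀]; exact hxy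
  have hpellK : ((|x| : ℤ) : 𝓞 K) ^ 2 - (D : 𝓞 K) * (f : 𝓞 K) ^ 2 * (y₀ : 𝓞 K) ^ 2 = 1 := by
    have : ((|x| ^ 2 - (D : ℤ) * (f : ℤ) ^ 2 * y₀ ^ 2 : ℤ) : 𝓞 K) = ((1 : ℤ) : 𝓞 K) := by rw [hpell]
    push_cast at this ⊢
    exact this
  have hpellR : ((|x| : ℤ) : ℝ) ^ 2 - (D : ℝ) * (f : ℝ) ^ 2 * (y₀ : ℝ) ^ 2 = 1 := by
    exact_mod_cast hpell
  have hu1 : (((|x| : ℤ) : 𝓞 K) + y₀ * f * δ) * (((|x| : ℤ) : 𝓞 K) - y₀ * f * δ) = 1 := by
    linear_combination hpellK - (y₀ : 𝓞 K) ^ 2 * (f : 𝓞 K) ^ 2 * hδ2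
  have hval : ∀ τ : K →+* ℝ, τ (((((|x| : ℤ) : 𝓞 K) + y₀ * f * δ : 𝓞 K)) : K) =
      ((|x| : ℤ) : ℝ) + y₀ * f * τ (δ : K) := by
    intro τ
    have h3 : (((((|x| : ℤ) : 𝓞 K) + y₀ * f * δ : 𝓞 K)) : K) =
        ((|x| : ℤ) : K) + (y₀ : K) * (f : K) * (δ : K) := by
      simp
    rw [h3, map_add, map_mul, map_mul, map_intCast, map_intCast, map_natCast]
  refine ⟨⟨((|x| : ℤ) : 𝓞 K) + y₀ * f * δ, ((|x| : ℤ) : 𝓞 K) - y₀ * f * δ, hu1,
    by rw [mul_comm]; exact hu1⟩, ?_, ?_, ?_⟩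
  · rw [Units.val_mk, hval σ, ← hs]
    have h1 : (1 : ℝ) ≤ ((|x| : ℤ) : ℝ) := by exact_mod_cast hx1
    have h2 : (0 : ℝ) < f := by exact_mod_cast hf0
    have h3 := mul_pos hyp h2
    nlinarith
  · rw [Units.val_mk, hval σ, hval σ', hopp, ← hs]
    linear_combination hpellR - (y₀ : ℝ) ^ 2 * (f : ℝ) ^ 2 * hs2
  · refine ⟨|x|, ?_⟩
    rw [Ideal.mem_span_singleton]
    exact ⟨y₀ * δ, by ring⟩

end Pool.Agent.H69.DF
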