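import Pool.Agent.H95.DR.Targets
import Pool.Agent.H23.DF.Basic

/-!
# Row AUN of the board `dfx_modules`: the unfolding of a sum over a lattice on a line
-/

set_option autoImplicit false

open MeasureTheory Set Filter NumberField
open scoped Real nonZeroDivisors Matrix MatrixGroups
open Pool.Agent.H31.CN Pool.Agent.H89.FM Pool.Agent.H61.FM Pool.Agent.H89.FC Pool.Agent.H95.FC
open Pool.Agent.H89.DF Pool.Agent.H95.DR

namespace Pool.Agent.H69.DF

/-- the kernel on the time axis -/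
noncomputable def gk (κ : ℕ) (m : ℤ) (k : ℝ → ℂ) (s r : ℝ) (τ : ℝ) : ℂ :=
  ((Real.sign s : ℝ) : ℂ) ^ κ * trr κ m τ * k (r * Real.cosh τ)

theorem norm_sign_pow (s : ℝ) (κ : ℕ) : ‖((Real.sign s : ℝ) : ℂ) ^ κ‖ ≤ 1 := by
  rw [norm_pow, Complex.norm_real, Real.norm_eq_abs]
  refine pow_le_one₀ (abs_nonneg _) ?_
  rcases Real.sign_apply_eq s with h | h | h <;> rw [h] <;> norm_num

theorem gk_cont (κ : ℕ) (m : ℤ) (k : ℝ → ℂ) (s r : ℝ) (hr : 0 < r) (hk : ContinuousOn k (Ioi 0)) :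
    Continuous (gk κ m k s r) := by
  unfold gk
  refine (continuous_const.mul (Pool.Agent.H23.DF.cont_trr κ m)).mul ?_
  refine hk.comp_continuous (continuous_const.mul Real.continuous_cosh) fun τ => ?_
  exact mul_pos hr (Real.cosh_pos τ)

theorem gk_bound (κ : ℕ) (m : ℤ) (k : ℝ → ℂ) (s r : ℝ) (hr : 0 < r) (C a : ℝ)
    (hkb : ∀ r : ℝ, 0 < r → ‖k r‖ ≤ C * r ^ (-a)) (τ : ℝ) :
    ‖gk κ m k s r τ‖ ≤ C * r ^ (-a) * Real.cosh τ ^ (-a) := by
  unfold gk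
  rw [norm_mul, norm_mul]
  have h1 := norm_sign_pow s κ
  have h2 := Pool.Agent.H23.DF.norm_trr_le κ m τ
  have h3 := hkb (r * Real.cosh τ) (mul_pos hr (Real.cosh_pos τ))
  rw [Real.mul_rpow hr.le (Real.cosh_pos τ).le, ← mul_assoc] at h3
  have h4 : ‖((Real.sign s : ℝ) : ℂ) ^ κ‖ * ‖trr κ m τ‖ ≤ 1 :=
    mul_le_one₀ h1 (norm_nonneg _) h2
  exact (mul_le_of_le_one_left (norm_nonneg _) h4).trans h3

theorem gk_int (κ : ℕ) (m : ℤ) (k : ℝ → ℂ) (s r : ℝ) (hr : 0 < r) (C a : ℝ) (ha : 1 < a)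
    (hk : ContinuousOn k (Ioi 0)) (hkb : ∀ r : ℝ, 0 < r → ‖k r‖ ≤ C * r ^ (-a)) :
    Integrable (gk κ m k s r) ∧
    ∫ τ : ℝ, ‖gk κ m k s r τ‖ ≤ C * r ^ (-a) * ∫ τ : ℝ, Real.cosh τ ^ (-a) := by
  have hI : Integrable fun τ : ℝ => C * r ^ (-a) * Real.cosh τ ^ (-a) :=
    (Pool.Agent.H23.DF.cosh_int (by linarith : 0 < a)).const_mul _
  have h1 : Integrable (gk κ m k s r) :=
    Integrable.mono' hI (gk_cont κ m k s r hr hk).aestronglyMeasurable
      (ae_of_all _ fun τ => gk_bound κ m k s r hr C a hkb τ)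
  refine ⟨h1, ?_⟩
  rw [← integral_const_mul]
  exact integral_mono h1.norm hI fun τ => gk_bound κ m k s r hr C a hkb τ

theorem gk_kr (κ : ℕ) (m : ℤ) (k : ℝ → ℂ) (s r ν l : ℝ) :
    Complex.exp (((ν * l : ℝ) : ℂ) * Complex.I) *
      ∫ τ : ℝ, gk κ m k s r τ * Complex.exp (-(((ν * τ : ℝ) : ℂ) * Complex.I)) =
    (((Real.sign s : ℝ) : ℂ) ^ κ * Complex.exp (((ν * l : ℝ) : ℂ) * Complex.I)) *
      kr κ m ν k r := by
  unfold kr gk
  rw [mul_comm (((Real.sign s : ℝ) : ℂ) ^ κ), mul_assoc, ← integral_const_mul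
    (((Real.sign s : ℝ) : ℂ) ^ κ)]
  congr 1
  refine integral_congr_ae (ae_of_all _ fun τ => ?_)
  simp only
  ring

theorem hs_congr {ι : Type} {u w : ι → ℂ} {a : ℂ} (h : HasSum u a) (he : ∀ i, w i = u i) :
    HasSum w a := by
  rw [show w = u from funext he]
  exact h

theorem hs_sub {ι : Type} {p : ι → Prop} {u : ι → ℂ} {a : ℂ}
    (h : HasSum (fun x : {v : ι // p v} => u x.1) a) : HasSum ({v : ι | p v}.indicator u) a :=
  hasSum_subtype_iff_indicator.1 h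

theorem sub_hs {ι : Type} {p : ι → Prop} {u : ι → ℂ} {a : ℂ}
    (h : HasSum ({v : ι | p v}.indicator u) a) : HasSum (fun x : {v : ι // p v} => u x.1) a :=
  hasSum_subtype_iff_indicator.2 h

open Classical in
theorem pf_UNW (hUNF : Pool.Agent.H89.DF.T_UNF) (hUAC : T_UAC) (hPHX : T_PHX) (hPBG : T_PBG)
    (hPBT : T_PBT) (hSML : T_SML) (hTYR : T_TYR) (_hTRA : T_TRA) (hUWN : T_UWN) : T_UNW := by
  intro K _ _ D f σ σ' hRQ hf I J α β Q b η V hOB hdsc hVB hUN κ m ν M k C a E hexp hM hk ha hkb hE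
  obtain ⟨A, hA1, hA2, hA3, hA4, hA5⟩ := hUAC K σ σ' f (I : Ideal (𝓞 K)) α β Q η hf hOB hUN
  obtain ⟨hP, -, -⟩ := hUWN K D f σ σ' hRQ η hUN
  have hI0 : (I : Ideal (𝓞 K)) ≠ ⊥ := nonZeroDivisors.coe_ne_zero I
  have hPB := (hPBT K σ σ').1 (I : Ideal (𝓞 K)) α β Q hI0 hOB
  obtain ⟨-, -, hgeo⟩ := hPBG K σ σ' _ α β Q hPB
  have hD : (-(dsc Q : ℝ)) = (D : ℝ) := by rw [hdsc]; push_cast; ring
  rw [hD] at hgeo
  have hM0 : (0 : ℝ) < M := by exact_mod_cast hM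
  have hD0 : (0 : ℝ) < D := by exact_mod_cast hRQ.pos
  have hMD : (0 : ℝ) < M * Real.sqrt D := mul_pos hM0 (Real.sqrt_pos.2 hD0)
  have hlv : ∀ v : ℤ × ℤ, v ≠ 0 → lv K α β v ≠ 0 := fun v hv h => hv (hOB.inj v h)
  have hσ : ∀ (ρ : K →+* ℝ) (x : 𝓞 K), x ≠ 0 → ρ (x : K) ≠ 0 := by
    intro ρ x hx h
    rw [map_eq_zero] at h
    exact hx (RingOfIntegers.coe_eq_zero_iff.1 h)
  have hval : ∀ v : ℤ × ℤ, v ≠ 0 → 0 < |(val Q v : ℝ)| := by
    intro v hv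
    rw [abs_pos]
    intro h
    have h1 := hOB.nrm v
    rw [h, mul_zero] at h1
    exact mul_ne_zero (hσ σ _ (hlv v hv)) (hσ σ' _ (hlv v hv)) h1
  have hη0 : (η : 𝓞 K) ≠ 0 := η.ne_zero
  -- the index set
  obtain ⟨p, hp⟩ : ∃ p : ℤ × ℤ → Prop, ∀ v, p v ↔
      (v ∈ lt K α β (J : Ideal (𝓞 K)) ∧ (f : ℤ) ∣ det V v ∧ v ≠ 0) := ⟨_, fun _ => Iff.rfl⟩
  have hpA : ∀ v, p v ↔ p (A v) := by
    intro v
    rw [hp, hp, hA5, hA3, Ne, Ne, hA2]
  obtain ⟨r, hrdef⟩ : ∃ r : ℤ × ℤ → ℝ, ∀ v, r v = |(val Q v : ℝ)| / (M * Real.sqrt D) :=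
    ⟨_, fun _ => rfl⟩
  have hr0 : ∀ v : ℤ × ℤ, v ≠ 0 → 0 < r v := fun v hv => by
    rw [hrdef]; exact div_pos (hval v hv) hMD
  obtain ⟨n, hn⟩ : ∃ n : ℤ × ℤ → ℝ, ∀ v, n v = σ (lv K α β v : K) * σ' (lv K α β v : K) :=
    ⟨_, fun _ => rfl⟩
  obtain ⟨l, hl⟩ : ∃ l : ℤ × ℤ → ℝ, ∀ v, l v = lg σ σ' (lv K α β v) := ⟨_, fun _ => rfl⟩
  obtain ⟨P, hPd⟩ : ∃ P : ℝ, P = lg σ σ' (η : 𝓞 K) := ⟨_, rfl⟩
  have hlA : ∀ v : ℤ × ℤ, v ≠ 0 → l (A v) = l v + P := by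
    intro v hv
    rw [hl, hl, hA1, ((hTYR K σ σ' κ ν).1 (η : 𝓞 K) (lv K α β v) hη0 (hlv v hv)).1, hPd, add_comm]
  have hrA : ∀ v, r (A v) = r v := fun v => by rw [hrdef, hrdef, hA4]
  have hnA : ∀ v, n (A v) = n v := by
    intro v
    rw [hn, hn, hA1]
    have h1 : ∀ ρ : K →+* ℝ, ρ (((η : 𝓞 K) * lv K α β v : 𝓞 K) : K) =
        ρ ((η : 𝓞 K) : K) * ρ (lv K α β v : K) := by
      intro ρ
      rw [show ((((η : 𝓞 K) * lv K α β v : 𝓞 K)) : K) = ((η : 𝓞 K) : K) * (lv K α β v : K) from rfl,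
        map_mul]
    rw [h1, h1]
    have h2 := hUN.nrm
    linear_combination (σ (lv K α β v : K) * σ' (lv K α β v : K)) * h2
  -- the data of the unfolding
  have hunf := hUNF {v : ℤ × ℤ // p v} (A.subtypeEquiv hpA) (fun x => l x.1) P ν
    (fun x => gk κ m k (n x.1) (r x.1)) (by rw [hPd]; exact hP)
    (fun x => hlA x.1 ((hp x.1).1 x.2).2.2)
    (fun x => by
      show gk κ m k (n (A x.1)) (r (A x.1)) = gk κ m k (n x.1) (r x.1)
      rw [hnA, hrA])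
    (fun x => (gk_int κ m k _ _ (hr0 _ ((hp x.1).1 x.2).2.2) C a ha hk hkb).1)
    (by rw [hPd]; exact hexp)
    (by
      have hS := (hSML K D f σ σ' hRQ).2 I α β Q b η hOB hVB hUN a 0 ha
      have hS1 : Summable ({v : ℤ × ℤ | Wd σ σ' α β η 0 v}.indicator
          (fun v => |(val Q v : ℝ)| ^ (-a))) := summable_subtype_iff_indicator.1 hS
      have hS2 := (hS1.comp_injective (Subtype.val_injective (p := p))).mul_left
        (C * (M * Real.sqrt D) ^ a * ∫ τ : ℝ, Real.cosh τ ^ (-a))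
      refine Summable.of_nonneg_of_le (fun x => ?_) (fun x => ?_) hS2
      · split_ifs
        · exact integral_nonneg fun τ => norm_nonneg _
        · exact le_rfl
      · have hx := ((hp x.1).1 x.2).2.2
        split_ifs with h
        · have hW : Wd σ σ' α β η 0 x.1 := by
            refine ⟨hx, ?_, ?_⟩
            · rw [← hl]; exact h.1
            · rw [← hl, zero_add, ← hPd]; exact h.2
          have h2 := (gk_int κ m k (n x.1) (r x.1) (hr0 _ hx) C a ha hk hkb).2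
          refine h2.trans (le_of_eq ?_)
          rw [Function.comp_apply, Set.indicator_of_mem (by exact hW), hrdef,
            Real.div_rpow (abs_nonneg _) hMD.le, Real.rpow_neg hMD.le]
          have h3 : (M * Real.sqrt D) ^ a ≠ 0 := (Real.rpow_pos_of_pos hMD a).ne'
          field_simp
        · have hC : 0 ≤ C := by
            have := hkb 1 one_pos
            rw [Real.one_rpow, mul_one] at this
            exact (norm_nonneg _).trans this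
          refine mul_nonneg (mul_nonneg (mul_nonneg hC (Real.rpow_nonneg hMD.le _))
            (integral_nonneg fun τ => Real.rpow_nonneg (Real.cosh_pos τ).le _)) ?_
          exact Set.indicator_nonneg (fun v _ => Real.rpow_nonneg (abs_nonneg _) _) _)
  obtain ⟨-, -, hH⟩ := hunf
  -- the function `E`
  have hEt : ∀ τ : ℝ, (∑' x : {v : ℤ × ℤ // p v}, gk κ m k (n x.1) (r x.1) (τ + l x.1)) = E τ := by
    intro τ
    have h1 : HasSum ({v : ℤ × ℤ | p v}.indicator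
        fun v => gk κ m k (n v) (r v) (τ + l v)) (E τ) := by
      refine hs_congr (hE τ) fun v => ?_
      by_cases hv : v ∈ lt K α β (J : Ideal (𝓞 K)) ∧ (f : ℤ) ∣ det V v ∧ v ≠ 0
      · rw [if_pos hv, Set.indicator_of_mem (by exact (hp v).2 hv)]
        obtain ⟨hy, hg, hq⟩ := hgeo τ
        obtain ⟨han, hwa, hqz⟩ := hq v (hlv v hv.2.2)
        obtain ⟨-, -, -, htr⟩ := hPHX K σ σ' τ (lv K α β v) (hlv v hv.2.2)
        unfold gk
        rw [hn, hl, ← htr κ m, ← hwa, mul_zpow, mul_zpow, hqz, hrdef]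
        congr 1
        · congr 1
          ring
        · congr 1
          field_simp
      · rw [if_neg hv, Set.indicator_of_notMem (by
          show ¬ p v
          rw [hp]; exact hv)]
    exact (sub_hs h1).tsum_eq
  rw [← hPd]
  have hH2 : HasSum ({v : ℤ × ℤ | p v}.indicator fun v => if 0 ≤ l v ∧ l v < P then
      Complex.exp (((ν * l v : ℝ) : ℂ) * Complex.I) *
        ∫ τ : ℝ, gk κ m k (n v) (r v) τ * Complex.exp (-(((ν * τ : ℝ) : ℂ) * Complex.I)) else 0)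
      (∫ τ in (0 : ℝ)..P, E τ * Complex.exp (-(((ν * τ : ℝ) : ℂ) * Complex.I))) := by
    simp only [hEt] at hH
    exact hs_sub (u := fun v => if 0 ≤ l v ∧ l v < P then
      Complex.exp (((ν * l v : ℝ) : ℂ) * Complex.I) *
        ∫ τ : ℝ, gk κ m k (n v) (r v) τ * Complex.exp (-(((ν * τ : ℝ) : ℂ) * Complex.I)) else 0) hH
  refine hs_congr hH2 fun v => ?_
  by_cases hv : p v
  · have hv' := (hp v).1 hv
    rw [Set.indicator_of_mem (by exact hv)]
    by_cases hW : 0 ≤ l v ∧ l v < P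
    · rw [if_pos hW, if_pos ⟨hv'.1, hv'.2.1, hv'.2.2, by rw [← hl]; exact hW.1,
        by rw [← hl, zero_add, ← hPd]; exact hW.2⟩, gk_kr, hrdef, hl, hn]
      unfold tyr
      rfl
    · rw [if_neg hW, if_neg]
      rintro ⟨-, -, -, h1, h2⟩
      rw [← hl] at h1 h2
      rw [zero_add, ← hPd] at h2
      exact hW ⟨h1, h2⟩
  · rw [Set.indicator_of_notMem (by exact hv), if_neg]
    rintro ⟨h1, h2, h3, -⟩
    exact hv ((hp v).2 ⟨h1, h2, h3⟩)

end Pool.Agent.H69.DF
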